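import Pool.Agent.Helper57.QZ.Stmts

/-! # Row BG: `g2` is bounded, measurable, and vanishes on `(0, 2)` -/

set_option autoImplicit false

namespace Pool.Agent.Helper57.QZ

open MeasureTheory Set Filter Topology

namespace S64

theorem count_period (a : ℕ) (q r : ℕ) :
    Nat.count (fun n => a.Coprime n) (a * q + r) =
      q * Nat.count (fun n => a.Coprime n) a + Nat.count (fun n => a.Coprime n) r := by
  induction q with
  | zero => simp
  | succ q ih =>
    have h1 : a * (q + 1) + r = a + (a * q + r) := by ring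
    rw [h1, Nat.count_add]
    have h2 : (fun k => a.Coprime (a + k)) = fun k => a.Coprime k := by
      funext k
      simp
    simp only [h2]
    rw [ih]
    ring

theorem count_bound (a : ℕ) (ha : 0 < a) (N : ℕ) :
    |(Nat.count (fun n => a.Coprime n) N : ℝ) -
      (Nat.count (fun n => a.Coprime n) a : ℝ) / a * N| ≤ a := by
  have h1 := count_period a (N / a) (N % a)
  rw [Nat.div_add_mod] at h1
  have hc1 : Nat.count (fun n => a.Coprime n) (N % a) ≤ N % a := Nat.count_le _
  have hc2 : Nat.count (fun n => a.Coprime n) a ≤ a := Nat.count_le _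
  have hr : N % a < a := Nat.mod_lt _ ha
  have hN : (N : ℝ) = a * ((N / a : ℕ) : ℝ) + ((N % a : ℕ) : ℝ) := by
    exact_mod_cast (Nat.div_add_mod N a).symm
  set C : ℝ := (Nat.count (fun n => a.Coprime n) a : ℝ) with hC
  set D : ℝ := (Nat.count (fun n => a.Coprime n) (N % a) : ℝ) with hD
  set q : ℝ := ((N / a : ℕ) : ℝ) with hq
  set r : ℝ := ((N % a : ℕ) : ℝ) with hr'
  have h2 : (Nat.count (fun n => a.Coprime n) N : ℝ) = q * C + D := by
    rw [h1]; push_cast; rfl
  have ha' : (0 : ℝ) < a := by exact_mod_cast ha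
  have hD0 : 0 ≤ D := Nat.cast_nonneg _
  have hDr : D ≤ r := by rw [hD, hr']; exact_mod_cast hc1
  have hra : r ≤ a := by rw [hr']; exact_mod_cast hr.le
  have hr0 : 0 ≤ r := Nat.cast_nonneg _
  have hC0 : 0 ≤ C := Nat.cast_nonneg _
  have hCa : C ≤ a := by rw [hC]; exact_mod_cast hc2
  rw [h2, hN]
  have h3 : q * C + D - C / a * (a * q + r) = D - C * r / a := by
    field_simp
    ring
  rw [h3]
  have h4 : 0 ≤ C * r / a := by positivity
  have h5 : C * r / a ≤ a := by
    rw [div_le_iff₀ ha']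
    nlinarith
  rw [abs_le]
  constructor <;> linarith

theorem cond_iff (y n : ℕ) (hn : n ≠ 0) :
    (∀ p ∈ n.primeFactors, y < p) ↔ (Nat.factorial y).Coprime n := by
  constructor
  · intro h
    refine Nat.coprime_of_dvd fun p hp h1 h2 => ?_
    have h3 := h p (Nat.mem_primeFactors.2 ⟨hp, h2, hn⟩)
    exact absurd ((hp.dvd_factorial).1 h1) (not_le.2 h3)
  · intro h p hp
    obtain ⟨hp1, hp2, -⟩ := Nat.mem_primeFactors.1 hp
    by_contra hle
    have h1 : p ∣ Nat.factorial y := (hp1.dvd_factorial).2 (not_lt.1 hle)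
    have h2 := Nat.dvd_gcd h1 hp2
    rw [h] at h2
    exact hp1.one_lt.ne' (Nat.dvd_one.1 h2)

theorem Nc_count (y : ℕ) (N : ℕ) :
    ((Finset.Icc 2 N).filter fun n => ∀ p ∈ n.primeFactors, y < p).card ≤
      Nat.count (fun n => (Nat.factorial y).Coprime n) (N + 1) ∧
    Nat.count (fun n => (Nat.factorial y).Coprime n) (N + 1) ≤
      ((Finset.Icc 2 N).filter fun n => ∀ p ∈ n.primeFactors, y < p).card + 2 := by
  rw [Nat.count_eq_card_filter_range]
  constructor
  · refine Finset.card_le_card fun n hn => ?_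
    rw [Finset.mem_filter, Finset.mem_Icc] at hn
    rw [Finset.mem_filter, Finset.mem_range]
    exact ⟨by omega, (cond_iff y n (by omega)).1 hn.2⟩
  · have hsub : (Finset.range (N + 1)).filter (fun n => (Nat.factorial y).Coprime n) ⊆
        ((Finset.Icc 2 N).filter fun n => ∀ p ∈ n.primeFactors, y < p) ∪ {0, 1} := by
      intro n hn
      rw [Finset.mem_filter, Finset.mem_range] at hn
      rw [Finset.mem_union]
      by_cases h : n ≤ 1
      · right
        interval_cases n <;> simp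
      · left
        rw [Finset.mem_filter, Finset.mem_Icc]
        exact ⟨by omega, (cond_iff y n (by omega)).2 hn.2⟩
    refine (Finset.card_le_card hsub).trans ((Finset.card_union_le _ _).trans ?_)
    exact Nat.add_le_add_left (Finset.card_le_two) _

/-- the density -/
noncomputable def dd (y : ℕ) : ℝ :=
  (Nat.count (fun n => (Nat.factorial y).Coprime n) (Nat.factorial y) : ℝ) / (Nat.factorial y : ℕ)

theorem dd_nonneg (y : ℕ) : 0 ≤ dd y := by unfold dd; positivity

theorem dd_le (y : ℕ) : dd y ≤ 1 := by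
  unfold dd
  have h : (0 : ℝ) < (Nat.factorial y : ℕ) := by exact_mod_cast Nat.factorial_pos y
  rw [div_le_one h]
  exact_mod_cast Nat.count_le _

theorem Nc_bound (y : ℕ) (x : ℝ) (hx : 0 ≤ x) :
    |Nc y x - dd y * x| ≤ (Nat.factorial y : ℕ) + 3 := by
  have h1 := Nc_count y ⌊x⌋₊
  have h2 := count_bound (Nat.factorial y) (Nat.factorial_pos y) (⌊x⌋₊ + 1)
  have h3 : (⌊x⌋₊ : ℝ) ≤ x := Nat.floor_le hx
  have h4 : x < (⌊x⌋₊ : ℝ) + 1 := Nat.lt_floor_add_one x
  have h5 := dd_nonneg y
  have h6 := dd_le y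
  have e1 : Nc y x ≤ (Nat.count (fun n => (Nat.factorial y).Coprime n) (⌊x⌋₊ + 1) : ℝ) := by
    unfold Nc; exact_mod_cast h1.1
  have e2 : (Nat.count (fun n => (Nat.factorial y).Coprime n) (⌊x⌋₊ + 1) : ℝ) ≤ Nc y x + 2 := by
    unfold Nc; exact_mod_cast h1.2
  change |_ - dd y * _| ≤ _ at h2
  push_cast at h2
  rw [abs_le] at h2 ⊢
  have h7 : dd y * ((⌊x⌋₊ : ℝ) + 1) - dd y * x ≤ 1 := by nlinarith
  have h8 : 0 ≤ dd y * ((⌊x⌋₊ : ℝ) + 1) - dd y * x := by nlinarith
  constructor <;> linarith [h2.1, h2.2]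

theorem Nc_mono (y : ℕ) : Monotone (Nc y) := by
  intro a b hab
  unfold Nc
  have h : ((Finset.Icc 2 ⌊a⌋₊).filter fun n => ∀ p ∈ n.primeFactors, y < p) ⊆
      ((Finset.Icc 2 ⌊b⌋₊).filter fun n => ∀ p ∈ n.primeFactors, y < p) :=
    Finset.filter_subset_filter _ (Finset.Icc_subset_Icc_right (Nat.floor_mono hab))
  exact_mod_cast Finset.card_le_card h

theorem Nc_zero (y : ℕ) (x : ℝ) (hx : x < 2) : Nc y x = 0 := by
  unfold Nc
  have h : ⌊x⌋₊ < 2 := by
    rcases le_or_gt x 0 with h0 | h0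
    · rw [Nat.floor_of_nonpos h0]; norm_num
    · exact (Nat.floor_lt h0.le).2 (by exact_mod_cast hx)
  rw [Finset.Icc_eq_empty (by omega)]
  simp

end S64

theorem st_BG : ST_BG := by
  intro y
  have hint : ∀ a b : ℝ, IntervalIntegrable (Nc y) volume a b := fun a b =>
    (S64.Nc_mono y).intervalIntegrable
  refine ⟨⟨3 * ((Nat.factorial y : ℕ) + 3), fun x hx => ?_⟩, ?_, fun x hx0 hx2 => ?_⟩
  · set B : ℝ := (Nat.factorial y : ℕ) + 3 with hB
    have h1 := S64.Nc_bound y x hx.le
    have h2 : ∫ u in (0:ℝ)..x, (Nc y u - S64.dd y * u) =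
        (∫ u in (0:ℝ)..x, Nc y u) - S64.dd y * (x ^ 2 / 2) := by
      have hi : IntervalIntegrable (fun u : ℝ => S64.dd y * u) volume 0 x :=
        (continuous_const.mul continuous_id).intervalIntegrable 0 x
      rw [intervalIntegral.integral_sub (hint 0 x) hi]
      congr 1
      rw [intervalIntegral.integral_const_mul, integral_id]
      ring
    have h3 : ‖∫ u in (0:ℝ)..x, (Nc y u - S64.dd y * u)‖ ≤ B * |x - 0| := by
      refine intervalIntegral.norm_integral_le_of_norm_le_const fun u hu => ?_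
      rw [uIoc_of_le hx.le] at hu
      rw [Real.norm_eq_abs]
      exact S64.Nc_bound y u hu.1.le
    rw [Real.norm_eq_abs, sub_zero, abs_of_pos hx, h2] at h3
    have h4 : g2 y x = (Nc y x - S64.dd y * x) - 2 / x *
        ((∫ u in (0:ℝ)..x, Nc y u) - S64.dd y * (x ^ 2 / 2)) := by
      unfold g2
      field_simp
      ring
    rw [h4]
    have h5 : |2 / x * ((∫ u in (0:ℝ)..x, Nc y u) - S64.dd y * (x ^ 2 / 2))| ≤ 2 * B := by
      rw [abs_mul, abs_of_pos (by positivity : (0:ℝ) < 2 / x)]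
      calc 2 / x * |(∫ u in (0:ℝ)..x, Nc y u) - S64.dd y * (x ^ 2 / 2)| ≤ 2 / x * (B * x) :=
            mul_le_mul_of_nonneg_left h3 (by positivity)
        _ = 2 * B := by field_simp
    calc |(Nc y x - S64.dd y * x) - 2 / x *
        ((∫ u in (0:ℝ)..x, Nc y u) - S64.dd y * (x ^ 2 / 2))| ≤
        |Nc y x - S64.dd y * x| + |2 / x * ((∫ u in (0:ℝ)..x, Nc y u) -
          S64.dd y * (x ^ 2 / 2))| := abs_sub _ _
      _ ≤ B + 2 * B := add_le_add h1 h5
      _ = 3 * B := by ring
  · have hm1 : Measurable (fun u : ℝ => Nc y (Real.exp u)) :=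
      (S64.Nc_mono y).measurable.comp Real.measurable_exp
    have hc : Continuous fun x : ℝ => ∫ u in (0:ℝ)..x, Nc y u :=
      intervalIntegral.continuous_primitive hint 0
    have hm2 : Measurable (fun u : ℝ => ∫ v in (0:ℝ)..Real.exp u, Nc y v) :=
      hc.measurable.comp Real.measurable_exp
    unfold g2
    exact hm1.sub ((measurable_const.div Real.measurable_exp).mul hm2)
  · unfold g2
    rw [S64.Nc_zero y x hx2]
    have : ∫ u in (0:ℝ)..x, Nc y u = 0 := by
      rw [intervalIntegral.integral_congr (g := fun _ => (0:ℝ)) (fun u hu => ?_)]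
      · simp
      · rw [uIcc_of_le hx0.le] at hu
        exact S64.Nc_zero y u (hu.2.trans_lt hx2)
    rw [this]
    simp

end Pool.Agent.Helper57.QZ
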